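import Mathlib
import Pool.Agent.Q15.BergDefs
import Pool.Agent.Q24.Ury.Defs
import Pool.Agent.Q24.Ury.Tame

/-! # The polymorphism clone of the rational Urysohn space has uncountable cofinality

The definitions are in two small modules.
* `Pool.Agent.Q15.BergDefs`: `OpSet` (sets of operations of arities `1, 2, ...`), `IsClone`,
  `Generates`, `metricPol X` (all operations of `X` that do not increase distances, the powers of
  `X` carrying the maximum metric), `IsFraisseLimit Δ X` (`X` is countable, has distances in `Δ`,
  contains every finite metric space with distances in `Δ`, and is homogeneous), `ratDist` (all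
  rational distances) and `ratDistOne` (rational distances at most `1`).
* `Pool.Agent.Q24.Ury.Defs`: `FinitelyGenerated` and the cofinality of a clone, `cofinality F`, the
  least cardinal `κ` such that `F` is the union of an increasing chain of length `κ` of proper
  subclones.
-/

namespace Pool.Agent.Results.MP_18f3df_al.UncountableCofinality

open Q15Berg Q24.Ury Cardinal

/-- The polymorphism clones of the rational Urysohn space and of the rational Urysohn sphere are
not finitely generated and have uncountable cofinality. -/
theorem result :
    (∀ (X : Type) [MetricSpace X], IsFraisseLimit ratDist X →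
      ¬ FinitelyGenerated (metricPol X) ∧ ℵ₀ < cofinality (metricPol X)) ∧
    (∀ (X : Type) [MetricSpace X], IsFraisseLimit ratDistOne X →
      ¬ FinitelyGenerated (metricPol X) ∧ ℵ₀ < cofinality (metricPol X)) :=
  ⟨fun _ _ hX => ⟨not_fg (tame_space hX), tame_cof (tame_space hX)⟩,
    fun _ _ hX => ⟨not_fg (tame_sphere hX), tame_cof (tame_sphere hX)⟩⟩

end Pool.Agent.Results.MP_18f3df_al.UncountableCofinality
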